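import Pool.Agent.DPS.Stmts

/-!
MP_d97b4e_co, squad DPS, row DDR: recursion of divided differences.
-/

set_option autoImplicit false

namespace Pool.Agent.DPS.H65

open Finset Pool.Agent.DPS

theorem ddr : DDRStmt := by
  intro v s f a b ha hb hab hinj
  have ha' : a ∉ insert b s := by simp [ha, hab]
  have hva : ∀ i ∈ s, v i - v a ≠ 0 := fun i hi h => by
    have h2 : i = a := hinj (by simp [hi]) (by simp) (sub_eq_zero.1 h)
    exact ha (h2 ▸ hi)
  have hvb : ∀ i ∈ s, v i - v b ≠ 0 := fun i hi h => by
    have h2 : i = b := hinj (by simp [hi]) (by simp) (sub_eq_zero.1 h)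
    exact hb (h2 ▸ hi)
  have hvab : v a - v b ≠ 0 := fun h =>
    hab (hinj (by simp) (by simp) (sub_eq_zero.1 h))
  have hvba : v b - v a ≠ 0 := fun h =>
    hab (hinj (by simp) (by simp) (sub_eq_zero.1 h)).symm
  have e1 : (insert a (insert b s)).erase b = insert a s := by
    rw [Finset.erase_insert_of_ne hab, Finset.erase_insert hb]
  have e2 : ∀ i ∈ s, (insert a (insert b s)).erase i = insert a (insert b (s.erase i)) := by
    intro i hi
    have h1 : a ≠ i := fun h => ha (h ▸ hi)
    have h2 : b ≠ i := fun h => hb (h ▸ hi)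
    rw [Finset.erase_insert_of_ne h1, Finset.erase_insert_of_ne h2]
  have e3 : ∀ i ∈ s, (insert b s).erase i = insert b (s.erase i) := by
    intro i hi
    have h2 : b ≠ i := fun h => hb (h ▸ hi)
    rw [Finset.erase_insert_of_ne h2]
  have e4 : ∀ i ∈ s, (insert a s).erase i = insert a (s.erase i) := by
    intro i hi
    have h2 : a ≠ i := fun h => ha (h ▸ hi)
    rw [Finset.erase_insert_of_ne h2]
  unfold dd
  rw [Finset.sum_insert ha', Finset.sum_insert hb, Finset.sum_insert hb, Finset.sum_insert ha,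
    Finset.erase_insert ha', e1, Finset.erase_insert hb, Finset.erase_insert ha,
    Finset.prod_insert hb, Finset.prod_insert ha]
  have key : ∀ i ∈ s, (v b - v a) * (f i / ∏ j ∈ (insert a (insert b s)).erase i, (v i - v j)) =
      f i / (∏ j ∈ (insert b s).erase i, (v i - v j)) -
        f i / (∏ j ∈ (insert a s).erase i, (v i - v j)) := by
    intro i hi
    have hb' : b ∉ s.erase i := fun h => hb (Finset.mem_of_mem_erase h)
    have ha'' : a ∉ s.erase i := fun h => ha (Finset.mem_of_mem_erase h)
    have ha3 : a ∉ insert b (s.erase i) := by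
      simp only [Finset.mem_insert, not_or]
      exact ⟨hab, ha''⟩
    rw [e2 i hi, e3 i hi, e4 i hi, Finset.prod_insert ha3, Finset.prod_insert hb',
      Finset.prod_insert ha'']
    have h1 := hva i hi
    have h2 := hvb i hi
    have h3 : ∏ j ∈ s.erase i, (v i - v j) ≠ 0 := by
      refine Finset.prod_ne_zero_iff.2 fun j hj h => ?_
      rw [Finset.mem_erase] at hj
      exact hj.1 (hinj (by simp [hj.2]) (by simp [hi]) (sub_eq_zero.1 h).symm)
    field_simp
    ring
  have h3 : ∏ j ∈ s, (v a - v j) ≠ 0 :=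
    Finset.prod_ne_zero_iff.2 fun j hj h => hva j hj (by linarith)
  have h4 : ∏ j ∈ s, (v b - v j) ≠ 0 :=
    Finset.prod_ne_zero_iff.2 fun j hj h => hvb j hj (by linarith)
  rw [mul_add, mul_add, Finset.mul_sum, Finset.sum_congr rfl key, Finset.sum_sub_distrib]
  have e5 : (v b - v a) * (f a / ((v a - v b) * ∏ j ∈ s, (v a - v j))) =
      - (f a / ∏ j ∈ s, (v a - v j)) := by
    field_simp
    ring
  have e6 : (v b - v a) * (f b / ((v b - v a) * ∏ j ∈ s, (v b - v j))) =
      f b / ∏ j ∈ s, (v b - v j) := by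
    field_simp
  rw [e5, e6]
  ring

end Pool.Agent.DPS.H65
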