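import Pool.Agent.DPS.Stmts

/-!
MP_d97b4e_co, squad DPS, row R1S: degrees of the star.
-/

set_option autoImplicit false

namespace Pool.Agent.DPS.H65

open Finset Pool.Agent.DPS

theorem card_sup (n k : ℕ) (U : Finset (Fin n)) (hU : U.card ≤ k) :
    (∑ F : KS n k, if U ⊆ F.1 then (1 : ℝ) else 0) = ((n - U.card).choose (k - U.card) : ℝ) := by
  rw [← Finset.sum_filter, Finset.sum_const, nsmul_eq_mul, mul_one]
  congr 1
  have h1 : (Finset.univ \ U : Finset (Fin n)).card = n - U.card := by
    rw [Finset.card_sdiff_of_subset (Finset.subset_univ U), Finset.card_univ, Fintype.card_fin]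
  rw [← h1, ← Finset.card_powersetCard]
  refine Finset.card_bij (fun F _ => F.1 \ U) ?_ ?_ ?_
  · intro F hF
    rw [Finset.mem_filter] at hF
    rw [Finset.mem_powersetCard]
    refine ⟨Finset.sdiff_subset_sdiff (Finset.subset_univ _) (le_refl _), ?_⟩
    rw [Finset.card_sdiff_of_subset hF.2, F.2]
  · intro F hF G hG h
    rw [Finset.mem_filter] at hF hG
    apply Subtype.ext
    have h' : F.1 \ U = G.1 \ U := h
    rw [← Finset.sdiff_union_of_subset hF.2, ← Finset.sdiff_union_of_subset hG.2, h']
  · intro G hG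
    rw [Finset.mem_powersetCard] at hG
    have hd : Disjoint G U := by
      rw [Finset.disjoint_left]
      intro x hx
      exact (Finset.mem_sdiff.1 (hG.1 hx)).2
    refine ⟨⟨G ∪ U, ?_⟩, ?_, ?_⟩
    · rw [Finset.card_union_of_disjoint hd, hG.2]
      omega
    · rw [Finset.mem_filter]
      exact ⟨Finset.mem_univ _, Finset.subset_union_right⟩
    · show (G ∪ U) \ U = G
      rw [Finset.union_sdiff_right]
      exact Finset.sdiff_eq_self_of_disjoint hd

theorem r1s : R1SStmt := by
  intro n k t ht hk T hT
  refine ⟨?_, ?_⟩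
  · have h := card_sup n k T (by omega)
    rw [hT] at h
    rw [← h]
    unfold ip star
    refine Finset.sum_congr rfl fun F _ => ?_
    split_ifs <;> simp
  · intro x
    have h0 : dg (star k T) {x} = ∑ F : KS n k, if insert x T ⊆ F.1 then (1 : ℝ) else 0 := by
      unfold dg star
      refine Finset.sum_congr rfl fun F _ => ?_
      by_cases h1 : x ∈ F.1
      · by_cases h2 : T ⊆ F.1
        · simp [h1, h2, Finset.insert_subset_iff]
        · simp [h1, h2, Finset.insert_subset_iff]
      · simp [h1, Finset.insert_subset_iff]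
    by_cases hx : x ∈ T
    · rw [if_pos hx, h0, Finset.insert_eq_of_mem hx]
      have h := card_sup n k T (by omega)
      rw [hT] at h
      exact h
    · have hc : (insert x T).card = t + 1 := by rw [Finset.card_insert_of_notMem hx, hT]
      rw [if_neg hx, h0, card_sup n k (insert x T) (by omega), hc]
      obtain ⟨c, rfl⟩ : ∃ c, k = t + 1 + c := ⟨k - (t + 1), by omega⟩
      obtain ⟨d, rfl⟩ : ∃ d, n = t + 1 + d := ⟨n - (t + 1), by omega⟩
      have e1 : t + 1 + d - (t + 1) = d := by omega
      have e2 : t + 1 + c - (t + 1) = c := by omega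
      have e3 : t + 1 + d - t = d + 1 := by omega
      have e4 : t + 1 + c - t = c + 1 := by omega
      rw [e1, e2, e3, e4]
      have h := Nat.add_one_mul_choose_eq d c
      have h' : ((d : ℝ) + 1) * (d.choose c : ℝ) = ((d + 1).choose (c + 1) : ℝ) * ((c : ℝ) + 1) := by
        exact_mod_cast h
      have e5 : (((t + 1 + d : ℕ) : ℝ) - t) = (d : ℝ) + 1 := by push_cast; ring
      have e6 : (((t + 1 + c : ℕ) : ℝ) - t) = (c : ℝ) + 1 := by push_cast; ring
      rw [e5, e6]
      have hd : (d : ℝ) + 1 ≠ 0 := by positivity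
      field_simp
      linarith

end Pool.Agent.DPS.H65
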